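import Pool.Agent.W795.DD.Stm2
import Pool.Agent.W785.DF.Alg

/-!
Project DD (helper214 for helper795): the coefficients of a solution are smooth in the time.
-/

set_option autoImplicit false

open MeasureTheory Set
open scoped ContDiff InnerProductSpace ENNReal

namespace Pool.Agent.W214.DD.Reg

open Pool.Agent.W795.DD
open H459R3.NS (V K3 Per pd fr ee cube)
open Pool.Agent.W785.DF (E3 dk kv cj Pk Nl Fld Fr TP tp frv Herm IsAdmissible)

theorem RD_congr (c d : ℝ → K3 → ℂ) (h : ∀ t, 0 ≤ t → ∀ k, c t k = d t k) (hc : RD c) : RD d := by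
  refine ⟨fun k => (hc.1 k).congr fun t ht => (h t ht k).symm, fun m T => ?_⟩
  obtain ⟨C, hC⟩ := hc.2 m T
  refine ⟨C, fun t ht k => ?_⟩
  rw [← h t ht.1 k]
  exact hC t ht k

theorem TC_congr : ∀ (n : ℕ) (c d : ℝ → K3 → ℂ), (∀ t, 0 ≤ t → ∀ k, c t k = d t k) →
    TC n c → TC n d := by
  intro n
  induction n with
  | zero => intro c d h hc; exact RD_congr c d h hc
  | succ n ih =>
    intro c d h hc
    obtain ⟨h1, c', h2, h3⟩ := hc
    refine ⟨RD_congr c d h h1, c', h2, fun t ht k => ?_⟩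
    exact (h3 t ht k).congr (fun s hs => (h s hs k).symm) (h t ht k).symm

theorem summable_int : Summable (fun n : ℤ => 1 / (1 + (n : ℝ) ^ 2)) := by
  have h1 : Summable (fun n : ℤ => 1 / (n : ℝ) ^ 2) := Real.summable_one_div_int_pow.2 one_lt_two
  have h2 : Summable (fun n : ℤ => if n = 0 then (1 : ℝ) else 0) := (hasSum_ite_eq 0 1).summable
  refine Summable.of_nonneg_of_le (fun n => by positivity) (fun n => ?_) (h1.add h2)
  by_cases h : n = 0
  · simp [h]
  · have : (0 : ℝ) < (n : ℝ) ^ 2 := by positivity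
    rw [if_neg h, add_zero]
    exact one_div_le_one_div_of_le this (by linarith)

/-- coordinates -/
def eqv : K3 ≃ ℤ × ℤ × ℤ where
  toFun k := (k 0, k 1, k 2)
  invFun p := ![p.1, p.2.1, p.2.2]
  left_inv k := by
    funext i
    fin_cases i <;> rfl
  right_inv p := rfl

theorem summable_K3 : Summable (fun k : K3 => 1 / (1 + W785.DF.sq k) ^ 3) := by
  have h1 := summable_int
  have h2 := (h1.mul_of_nonneg h1 (fun n => by positivity) (fun n => by positivity))
  have h3 := (h1.mul_of_nonneg h2 (fun n => by positivity) (fun n => by positivity))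
  have h4 := (eqv.summable_iff).2 h3
  refine Summable.of_nonneg_of_le (fun k => ?_) (fun k => ?_) h4
  · have := W785.DF.sq_nonneg' k
    positivity
  · have e : W785.DF.sq k = (k 0 : ℝ) ^ 2 + (k 1 : ℝ) ^ 2 + (k 2 : ℝ) ^ 2 := by
      simp [W785.DF.sq, Fin.sum_univ_three]
    simp only [Function.comp, eqv]
    rw [one_div_mul_one_div, one_div_mul_one_div, e]
    refine one_div_le_one_div_of_le (by positivity) ?_
    have a0 := sq_nonneg (k 0 : ℝ)
    have a1 := sq_nonneg (k 1 : ℝ)
    have a2 := sq_nonneg (k 2 : ℝ)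
    set p := (k 0 : ℝ) ^ 2
    set q := (k 1 : ℝ) ^ 2
    set r := (k 2 : ℝ) ^ 2
    calc (1 + p) * ((1 + q) * (1 + r)) ≤ (1 + (p + q + r)) * ((1 + (p + q + r)) *
          (1 + (p + q + r))) := by gcongr <;> linarith
      _ = (1 + (p + q + r)) ^ 3 := by ring

theorem summable_of_decay (a : K3 → E3) (C : ℝ)
    (h : ∀ k, (1 + W785.DF.sq k) ^ 3 * ‖a k‖ ≤ C) : Summable (fun k => ‖a k‖) := by
  refine Summable.of_nonneg_of_le (fun k => norm_nonneg _) (fun k => ?_)
    (summable_K3.mul_left C)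
  have h1 := W785.DF.sq_nonneg' k
  have h2 : 0 < (1 + W785.DF.sq k) ^ 3 := by positivity
  rw [mul_one_div, le_div_iff₀ h2, mul_comm]
  exact h k

theorem abs_le_sq (k : K3) (j : Fin 3) : |(k j : ℝ)| ≤ 1 + W785.DF.sq k := by
  have h1 : (k j : ℝ) ^ 2 ≤ W785.DF.sq k :=
    Finset.single_le_sum (f := fun j => (k j : ℝ) ^ 2) (fun _ _ => sq_nonneg _) (Finset.mem_univ j)
  have h2 := sq_nonneg (|(k j : ℝ)| - 1)
  have h3 := sq_abs (k j : ℝ)
  nlinarith [abs_nonneg (k j : ℝ)]

theorem NlI_apply (a : K3 → E3) (h : ∀ m : ℕ, ∃ C : ℝ, ∀ k, (1 + W785.DF.sq k) ^ m * ‖a k‖ ≤ C)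
    (k : K3) (i : Fin 3) : NlI a k i =
      ∑ j : Fin 3, ∑' l : K3, a l j * ((2 * Real.pi * Complex.I * ((k - l) j : ℂ)) * a (k - l) i) := by
  have hpi := Real.pi_pos
  obtain ⟨C3, hC3⟩ := h 3
  obtain ⟨C1, hC1⟩ := h 1
  have hs := summable_of_decay a C3 hC3
  have hcoef : ∀ (l : K3) (j : Fin 3),
      ‖(2 * Real.pi * Complex.I * ((l j : ℤ) : ℂ)) * a l i‖ ≤ 2 * Real.pi * C1 := by
    intro l j
    have e1 : ‖(2 * Real.pi * Complex.I * ((l j : ℤ) : ℂ))‖ = 2 * Real.pi * |(l j : ℝ)| := by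
      rw [norm_mul, norm_mul, norm_mul, Complex.norm_I, Complex.norm_real,
        Real.norm_of_nonneg hpi.le, Complex.norm_ofNat, mul_one]
      congr 1
      rw [← Complex.ofReal_intCast, Complex.norm_real, Real.norm_eq_abs]
    rw [norm_mul, e1]
    have h1 := abs_le_sq l j
    have h2 := PiLp.norm_apply_le (a l) i
    have h3 := hC1 l
    rw [pow_one] at h3
    have h4 := W785.DF.sq_nonneg' l
    have h5 : 0 ≤ 2 * Real.pi * (1 + W785.DF.sq l) := by positivity
    calc 2 * Real.pi * |(l j : ℝ)| * ‖a l i‖ ≤ 2 * Real.pi * (1 + W785.DF.sq l) * ‖a l‖ := by gcongr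
      _ = 2 * Real.pi * ((1 + W785.DF.sq l) * ‖a l‖) := by ring
      _ ≤ 2 * Real.pi * C1 := by gcongr
  have hsj : ∀ j : Fin 3, Summable (fun l : K3 =>
      a l j * ((2 * Real.pi * Complex.I * ((k - l) j : ℂ)) * a (k - l) i)) := by
    intro j
    refine Summable.of_norm_bounded (hs.mul_right (2 * Real.pi * C1)) fun l => ?_
    rw [norm_mul]
    have h1 := hcoef (k - l) j
    have h2 := PiLp.norm_apply_le (a l) j
    have h3 : (((k - l) j : ℤ) : ℂ) = ((k - l) j : ℂ) := rfl
    exact mul_le_mul h2 h1 (norm_nonneg _) (norm_nonneg _)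
  have hsv : Summable (fun l : K3 => (2 * Real.pi * Complex.I * dk (k - l) (a l)) • a (k - l)) := by
    refine Summable.of_norm_bounded (hs.mul_right (2 * Real.pi * C1)) fun l => ?_
    rw [norm_smul, norm_mul, norm_mul, norm_mul, Complex.norm_I, Complex.norm_real,
      Real.norm_of_nonneg hpi.le, Complex.norm_ofNat, mul_one]
    have h1 := W785.DF.norm_dk_le (k - l) (a l)
    have h2 := hC1 (k - l)
    rw [pow_one] at h2
    have h4 := W785.DF.sq_nonneg' (k - l)
    have h3 : Real.sqrt (W785.DF.sq (k - l)) ≤ 1 + W785.DF.sq (k - l) := by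
      rw [Real.sqrt_le_left (by linarith)]
      nlinarith
    calc 2 * Real.pi * ‖dk (k - l) (a l)‖ * ‖a (k - l)‖
        ≤ 2 * Real.pi * ((1 + W785.DF.sq (k - l)) * ‖a l‖) * ‖a (k - l)‖ := by
          gcongr
          exact h1.trans (mul_le_mul_of_nonneg_right h3 (norm_nonneg _))
      _ = ‖a l‖ * (2 * Real.pi * ((1 + W785.DF.sq (k - l)) * ‖a (k - l)‖)) := by ring
      _ ≤ ‖a l‖ * (2 * Real.pi * C1) := by gcongr
  have e1 : NlI a k i = ∑' l : K3,
      ((2 * Real.pi * Complex.I * dk (k - l) (a l)) • a (k - l)) i :=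
    ContinuousLinearMap.map_tsum (EuclideanSpace.proj i : E3 →L[ℂ] ℂ) hsv
  rw [e1, ← Summable.tsum_finsetSum (fun j _ => hsj j)]
  refine tsum_congr fun l => ?_
  simp only [PiLp.smul_apply, smul_eq_mul, dk, Finset.mul_sum, Finset.sum_mul]
  refine Finset.sum_congr rfl fun j _ => ?_
  ring

theorem proof (htc : S_tc) : S_reg := by
  obtain ⟨hadd, hmul, hconv, hdown⟩ := htc
  intro ν b0 x hν hx i n
  have hpi := Real.pi_pos
  have hderiv : ∀ (j : Fin 3) (t : ℝ), 0 ≤ t → ∀ k, HasDerivWithinAt (fun s => x s k j)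
      ((-(lam ν k • x t k) - Pk k (NlI (x t) k)) j) (Ici 0) t := by
    intro j t ht k
    exact ((EuclideanSpace.proj j : E3 →L[ℂ] ℂ).restrictScalars ℝ).hasFDerivAt.comp_hasDerivWithinAt
      t (hx.ode t ht k)
  have hRD : ∀ j : Fin 3, RD (fun t k => x t k j) := by
    intro j
    refine ⟨fun k t ht => (hderiv j t ht k).continuousWithinAt, fun m T => ?_⟩
    obtain ⟨C, hC⟩ := hx.decay m
    refine ⟨C, fun t ht k => (mul_le_mul_of_nonneg_left (PiLp.norm_apply_le (x t k) j) ?_).trans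
      (hC t ht.1 k)⟩
    have := W785.DF.sq_nonneg' k
    positivity
  have hsum : ∀ (n : ℕ) (f : Fin 3 → ℝ → K3 → ℂ), (∀ j, TC n (f j)) →
      TC n (fun t k => ∑ j, f j t k) := by
    intro n f hf
    have h1 := hadd n _ _ (hadd n _ _ (hf 0) (hf 1)) (hf 2)
    refine TC_congr n _ _ (fun t _ k => ?_) h1
    simp [Fin.sum_univ_three]
  have key : ∀ (n : ℕ) (i : Fin 3), TC n fun t k => x t k i := by
    intro n
    induction n with
    | zero => exact hRD
    | succ n ih =>
      intro i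
      refine ⟨hRD i, fun t k => (-(lam ν k • x t k) - Pk k (NlI (x t) k)) i, ?_, hderiv i⟩
      -- the nonlinear term
      have hN : ∀ i : Fin 3, TC n (fun t k => NlI (x t) k i) := by
        intro i
        have h1 : ∀ j : Fin 3, TC n (fun t k => ∑' l : K3, x t l j *
            ((2 * Real.pi * Complex.I * (((k - l) j : ℤ) : ℂ)) * x t (k - l) i)) := by
          intro j
          refine hconv n (fun t k => x t k j)
            (fun t k => (2 * Real.pi * Complex.I * ((k j : ℤ) : ℂ)) * x t k i) (ih j) ?_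
          refine hmul n (fun t k => x t k i) (fun k => 2 * Real.pi * Complex.I * ((k j : ℤ) : ℂ))
            (2 * Real.pi) 1 (fun k => ?_) (ih i)
          rw [norm_mul, norm_mul, norm_mul, Complex.norm_I, Complex.norm_real,
            Real.norm_of_nonneg hpi.le, Complex.norm_ofNat, mul_one, pow_one]
          rw [← Complex.ofReal_intCast, Complex.norm_real, Real.norm_eq_abs]
          exact mul_le_mul_of_nonneg_left (abs_le_sq k j) (by positivity)
        refine TC_congr n _ _ (fun t ht k => ?_) (hsum n _ h1)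
        refine (NlI_apply (x t) (fun m => ?_) k i).symm
        obtain ⟨C, hC⟩ := hx.decay m
        exact ⟨C, hC t ht⟩
      have h1 : TC n (fun t k => -(lam ν k) * x t k i) := by
        refine hmul n (fun t k => x t k i) (fun k => -(lam ν k)) (4 * Real.pi ^ 2 * ν) 1
          (fun k => ?_) (ih i)
        have h2 := W785.DF.sq_nonneg' k
        rw [norm_neg, lam, Complex.norm_real, Real.norm_of_nonneg (by positivity), pow_one]
        exact mul_le_mul_of_nonneg_left (by linarith) (by positivity)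
      have h2 : TC n (fun t k => (-1 : ℂ) * NlI (x t) k i) :=
        hmul n _ (fun _ => -1) 1 0 (fun k => by simp) (hN i)
      have h3 : TC n (fun t k => ∑ j : Fin 3,
          ((k j : ℂ) * (k i : ℂ) / (W785.DF.sq k : ℂ)) * NlI (x t) k j) := by
        refine hsum n _ fun j => ?_
        refine hmul n _ (fun k => (k j : ℂ) * (k i : ℂ) / (W785.DF.sq k : ℂ)) 1 0 (fun k => ?_) (hN j)
        have h4 := W785.DF.sq_nonneg' k
        rw [norm_div, norm_mul, pow_zero, mul_one]
        rw [← Complex.ofReal_intCast, ← Complex.ofReal_intCast, Complex.norm_real,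
          Complex.norm_real, Complex.norm_real, Real.norm_eq_abs, Real.norm_eq_abs,
          Real.norm_of_nonneg h4]
        refine div_le_one_of_le₀ ?_ h4
        have a1 : (k j : ℝ) ^ 2 ≤ W785.DF.sq k := Finset.single_le_sum
          (f := fun j => (k j : ℝ) ^ 2) (fun _ _ => sq_nonneg _) (Finset.mem_univ j)
        have a2 : (k i : ℝ) ^ 2 ≤ W785.DF.sq k := Finset.single_le_sum
          (f := fun j => (k j : ℝ) ^ 2) (fun _ _ => sq_nonneg _) (Finset.mem_univ i)
        rw [← abs_mul]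
        refine abs_le_of_sq_le_sq ?_ h4
        calc ((k j : ℝ) * (k i : ℝ)) ^ 2 = (k j : ℝ) ^ 2 * (k i : ℝ) ^ 2 := by ring
          _ ≤ W785.DF.sq k * W785.DF.sq k := mul_le_mul a1 a2 (sq_nonneg _) h4
          _ = W785.DF.sq k ^ 2 := by ring
      refine TC_congr n _ _ (fun t ht k => ?_) (hadd n _ _ (hadd n _ _ h1 h2) h3)
      simp only [Pk, PiLp.sub_apply, PiLp.neg_apply, PiLp.smul_apply, smul_eq_mul, dk, kv]
      rw [Finset.sum_div, Finset.sum_mul]
      have : ∀ a b c d : ℂ, a + b = c → a + b + d = c + d := fun a b c d h => by rw [h]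
      have e2 : ∑ j : Fin 3, (k j : ℂ) * (k i : ℂ) / (W785.DF.sq k : ℂ) * NlI (x t) k j =
          ∑ j : Fin 3, (k j : ℂ) * NlI (x t) k j / (W785.DF.sq k : ℂ) * (k i : ℂ) :=
        Finset.sum_congr rfl fun j _ => by ring
      rw [e2]
      ring
  exact key n i

end Pool.Agent.W214.DD.Reg
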